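import Mathlib

set_option autoImplicit false

/-!
# MP_72b8ed_an: complete Pick factors on the domain of the master certificate need not be diagonal

For every `g ≥ 1` take `k (z, w) = (1 + 1 / (1 - ⟨z, w⟩)) / 2` on the unit ball of `ℂ^g`. It is a
normalized diagonal holomorphic kernel, its master certificate is `ϑ (x) = σ / (2 - σ)` with
`σ = x_1 + ... + x_g`, and `Ω¹_ϑ` is the unit ball. With `q (z) = z_1 + z_1 ^ 2` and the kernel
`h (z, w) = q (z) conj (q (w)) / 12`, the function `s = k / (1 - h)` is a holomorphic complete Pick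
kernel on the unit ball, normalized at the origin, with `k = (1 - h) s`, and `s` is not diagonal.
-/

namespace Pool.Agent.Results.MP_72b8ed_an.NonDiagonalFactor

open Finset Filter Topology
open scoped ComplexConjugate ComplexOrder

variable {g : ℕ}

/-- The monomial `x^a = x_1^{a_1} ⋯ x_g^{a_g}`. -/
def mon (a : Fin g →₀ ℕ) (x : Fin g → ℂ) : ℂ := ∏ j, x j ^ a j

/-- `|x|^{2a} = ∏ |x_j|^{2 a_j}`. -/
noncomputable def absMon (a : Fin g →₀ ℕ) (x : Fin g → ℂ) : ℝ := ∏ j, ‖x j‖ ^ (2 * a j)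

/-- A kernel on `Ω`: a positive semidefinite function `Ω × Ω → ℂ`. -/
def IsKernel (Ω : Set (Fin g → ℂ)) (f : (Fin g → ℂ) → (Fin g → ℂ) → ℂ) : Prop :=
  ∀ (n : ℕ) (x : Fin n → Fin g → ℂ), (∀ i, x i ∈ Ω) →
    (Matrix.of fun i j => f (x i) (x j)).PosSemidef

/-- `f` is holomorphic in the first and antiholomorphic in the second variable on `Ω`. -/
def IsHolomorphic (Ω : Set (Fin g → ℂ)) (f : (Fin g → ℂ) → (Fin g → ℂ) → ℂ) : Prop :=
  (∀ w ∈ Ω, DifferentiableOn ℂ (fun z => f z w) Ω) ∧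
    ∀ z ∈ Ω, DifferentiableOn ℂ (fun w => conj (f z w)) Ω

/-- The expansion `f (z, w) = ∑_a c_a z^a conj(w)^a` at the origin. -/
def HasDiagonalExpansion (f : (Fin g → ℂ) → (Fin g → ℂ) → ℂ) (c : (Fin g →₀ ℕ) → ℝ) : Prop :=
  ∀ᶠ p in 𝓝 ((0, 0) : (Fin g → ℂ) × (Fin g → ℂ)),
    HasSum (fun a => (c a : ℂ) * mon a p.1 * conj (mon a p.2)) (f p.1 p.2)

/-- `f` is diagonal: `f (z, w) = ∑_a c_a z^a conj(w)^a` at the origin with all `c_a > 0`. -/
def IsDiagonal (f : (Fin g → ℂ) → (Fin g → ℂ) → ℂ) : Prop :=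
  ∃ c : (Fin g →₀ ℕ) → ℝ, (∀ a, 0 < c a) ∧ HasDiagonalExpansion f c

/-- `s` is a complete Pick kernel on `Ω` normalized at the origin: `s` is a kernel without zeros,
`s (z, 0) = 1`, and `1 - 1 / s` is a kernel. -/
def IsCPKernel (Ω : Set (Fin g → ℂ)) (s : (Fin g → ℂ) → (Fin g → ℂ) → ℂ) : Prop :=
  IsKernel Ω s ∧ (∀ z ∈ Ω, s z 0 = 1) ∧ (∀ z ∈ Ω, ∀ w ∈ Ω, s z w ≠ 0) ∧
    IsKernel Ω (fun z w => 1 - 1 / s z w)

/-- `ϑ` is the master certificate of the coefficients `k`: `ϑ_0 = 0`, `ϑ_{e_j} = k_{e_j}`, and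
`ϑ_b = max {0, k_b - ∑_{u + v = b, u, v ≠ 0} ϑ_u k_v}` for `|b| ≥ 2`. (These equations determine
`ϑ`.) -/
def IsMasterCertificate (k ϑ : (Fin g →₀ ℕ) → ℝ) : Prop :=
  ϑ 0 = 0 ∧ (∀ j, ϑ (Finsupp.single j 1) = k (Finsupp.single j 1)) ∧
    ∀ b : Fin g →₀ ℕ, 2 ≤ ∑ j, b j →
      ϑ b = max 0 (k b - ∑ p ∈ (antidiagonal b).filter (fun p => p.1 ≠ 0 ∧ p.2 ≠ 0),
        ϑ p.1 * k p.2)

/-- `Ω_ϑ`, the interior of `{x : sup_b ϑ_b |x|^{2b} < ∞}`. -/
def OmegaTheta (ϑ : (Fin g →₀ ℕ) → ℝ) : Set (Fin g → ℂ) :=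
  interior {x | BddAbove (Set.range fun b => ϑ b * absMon b x)}

/-- `Ω¹_ϑ`, the set of `x ∈ Ω_ϑ` with `∑_{b ≠ 0} ϑ_b |x|^{2b} < 1` (here `ϑ_0 = 0`). -/
def OmegaOne (ϑ : (Fin g →₀ ℕ) → ℝ) : Set (Fin g → ℂ) :=
  {x | x ∈ OmegaTheta ϑ ∧ Summable (fun b => ϑ b * absMon b x) ∧ ∑' b, ϑ b * absMon b x < 1}

/-! ### Kernels -/

section kernels

variable {Ω : Set (Fin g → ℂ)} {f f' : (Fin g → ℂ) → (Fin g → ℂ) → ℂ}

theorem IsKernel.congr (hf : IsKernel Ω f) (h : ∀ z ∈ Ω, ∀ w ∈ Ω, f z w = f' z w) :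
    IsKernel Ω f' := by
  intro n x hx
  have : (Matrix.of fun i j => f' (x i) (x j)) = Matrix.of fun i j => f (x i) (x j) := by
    ext i j
    simp only [Matrix.of_apply]
    exact (h _ (hx i) _ (hx j)).symm
  rw [this]
  exact hf n x hx

theorem IsKernel.add (hf : IsKernel Ω f) (hf' : IsKernel Ω f') :
    IsKernel Ω (fun z w => f z w + f' z w) := by
  intro n x hx
  exact (hf n x hx).add (hf' n x hx)

theorem IsKernel.mul (hf : IsKernel Ω f) (hf' : IsKernel Ω f') :
    IsKernel Ω (fun z w => f z w * f' z w) := by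
  intro n x hx
  exact (hf n x hx).hadamard (hf' n x hx)

theorem isKernel_rankOne (q : (Fin g → ℂ) → ℂ) : IsKernel Ω (fun z w => q z * conj (q w)) := by
  intro n x _
  have := Matrix.posSemidef_vecMulVec_self_star (fun i => q (x i))
  exact this

theorem isKernel_const {r : ℝ} (hr : 0 ≤ r) : IsKernel Ω (fun _ _ => (r : ℂ)) := by
  have h := isKernel_rankOne (Ω := Ω) (fun _ => ((Real.sqrt r : ℝ) : ℂ))
  refine h.congr fun z _ w _ => ?_
  rw [Complex.conj_ofReal, ← Complex.ofReal_mul, Real.mul_self_sqrt hr]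

theorem IsKernel.lim {F : ℕ → (Fin g → ℂ) → (Fin g → ℂ) → ℂ} (hF : ∀ N, IsKernel Ω (F N))
    (h : ∀ z ∈ Ω, ∀ w ∈ Ω, Tendsto (fun N => F N z w) atTop (𝓝 (f z w))) : IsKernel Ω f := by
  intro n x hx
  rw [Matrix.posSemidef_iff_dotProduct_mulVec]
  have key : ∀ i j, Tendsto (fun N => F N (x i) (x j)) atTop (𝓝 (f (x i) (x j))) :=
    fun i j => h _ (hx i) _ (hx j)
  constructor
  · ext i j
    simp only [Matrix.conjTranspose_apply, Matrix.of_apply]
    have h1 := (key j i).star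
    refine tendsto_nhds_unique h1 ?_
    refine (key i j).congr fun N => ?_
    have h2 := (hF N n x hx).isHermitian.apply i j
    simp only [Matrix.of_apply] at h2
    exact h2.symm
  · intro y
    have h1 : Tendsto (fun N => star y ⬝ᵥ ((Matrix.of fun i j => F N (x i) (x j)).mulVec y)) atTop
        (𝓝 (star y ⬝ᵥ ((Matrix.of fun i j => f (x i) (x j)).mulVec y))) := by
      simp only [dotProduct, Matrix.mulVec, Matrix.of_apply]
      exact tendsto_finsetSum _ fun i _ => (tendsto_finsetSum _ fun j _ =>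
        (key i j).mul_const _).const_mul _
    refine ge_of_tendsto' h1 fun N => ?_
    exact (Matrix.posSemidef_iff_dotProduct_mulVec.1 (hF N n x hx)).2 y

theorem IsKernel.pow (hf : IsKernel Ω f) (n : ℕ) : IsKernel Ω (fun z w => f z w ^ n) := by
  induction n with
  | zero =>
    refine (isKernel_const (Ω := Ω) zero_le_one).congr fun z _ w _ => ?_
    simp
  | succ n ih =>
    refine (ih.mul hf).congr fun z _ w _ => ?_
    rw [pow_succ]

theorem IsKernel.sum {ι : Type} (s : Finset ι) (F : ι → (Fin g → ℂ) → (Fin g → ℂ) → ℂ)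
    (hF : ∀ i ∈ s, IsKernel Ω (F i)) : IsKernel Ω (fun z w => ∑ i ∈ s, F i z w) := by
  classical
  induction s using Finset.induction_on with
  | empty =>
    refine (isKernel_const (Ω := Ω) le_rfl).congr fun z _ w _ => ?_
    simp
  | insert a s ha ih =>
    refine ((hF a (mem_insert_self _ _)).add (ih fun i hi => hF i (mem_insert_of_mem hi))).congr
      fun z _ w _ => ?_
    rw [sum_insert ha]

/-- the geometric series of a kernel -/
theorem IsKernel.geom (hf : IsKernel Ω f) (h : ∀ z ∈ Ω, ∀ w ∈ Ω, ‖f z w‖ < 1) :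
    IsKernel Ω (fun z w => (1 - f z w)⁻¹) := by
  refine IsKernel.lim (F := fun N z w => ∑ n ∈ range N, f z w ^ n)
    (fun N => IsKernel.sum _ _ fun n _ => hf.pow n) fun z hz w hw => ?_
  exact (hasSum_geometric_of_norm_lt_one (h z hz w hw)).tendsto_sum_nat

end kernels

/-! ### Multinomial coefficients -/

section multi

open MvPolynomial

/-- the degree of a multi-index -/
def deg (a : Fin g →₀ ℕ) : ℕ := ∑ j, a j

/-- the multi-indices of degree `n` -/
noncomputable def E (g n : ℕ) : Finset (Fin g →₀ ℕ) :=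
  ((∑ i, X i : MvPolynomial (Fin g) ℕ) ^ n).support

theorem coeff_S (n : ℕ) (a : Fin g →₀ ℕ) :
    coeff a ((∑ i, X i : MvPolynomial (Fin g) ℕ) ^ n) = if deg a = n then a.multinomial else 0 := by
  have h := coeff_linearCombination_X_pow_of_fintype (R := ℕ) (fun _ : Fin g => 1) a n
  simp only [one_smul, one_pow, Finsupp.prod, prod_const_one, mul_one] at h
  rw [h]
  have : a.sum (fun _ m => m) = deg a := by
    rw [Finsupp.sum_fintype _ _ (fun _ => rfl)]
    rfl
  rw [this]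
  simp

theorem multinomial_pos (a : Fin g →₀ ℕ) : 0 < a.multinomial := Nat.multinomial_pos _ _

theorem mem_E {n : ℕ} {a : Fin g →₀ ℕ} : a ∈ E g n ↔ deg a = n := by
  unfold E
  rw [mem_support_iff, coeff_S]
  have := multinomial_pos a
  split_ifs with h
  · simp [h, this.ne']
  · simp [h]

theorem sum_E {K : Type} [CommRing K] (x : Fin g → K) (n : ℕ) :
    ∑ a ∈ E g n, (a.multinomial : K) * ∏ j, x j ^ a j = (∑ j, x j) ^ n := by
  have h : eval₂ (Nat.castRingHom K) x ((∑ i, X i : MvPolynomial (Fin g) ℕ) ^ n) =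
      (∑ j, x j) ^ n := by
    rw [eval₂_pow, eval₂_sum]
    simp only [eval₂_X]
  rw [← h, eval₂_eq']
  refine sum_congr rfl fun a ha => ?_
  rw [coeff_S, if_pos (mem_E.1 ha)]
  simp

theorem deg_add (a b : Fin g →₀ ℕ) : deg (a + b) = deg a + deg b := by
  simp [deg, sum_add_distrib]

theorem deg_eq_zero {a : Fin g →₀ ℕ} : deg a = 0 ↔ a = 0 := by
  simp only [deg, sum_eq_zero_iff, mem_univ, true_implies]
  constructor
  · intro h
    ext j
    exact h j
  · intro h j
    rw [h]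
    rfl

theorem vandermonde (b : Fin g →₀ ℕ) {m : ℕ} (hm : m ≤ deg b) :
    ∑ p ∈ (antidiagonal b).filter (fun p => deg p.1 = m),
      (p.1.multinomial * p.2.multinomial) = b.multinomial := by
  have h : coeff b ((∑ i, X i : MvPolynomial (Fin g) ℕ) ^ m *
      (∑ i, X i : MvPolynomial (Fin g) ℕ) ^ (deg b - m)) = b.multinomial := by
    rw [← pow_add, Nat.add_sub_cancel' hm, coeff_S, if_pos rfl]
  rw [← h, coeff_mul, sum_filter]
  refine sum_congr rfl fun p hp => ?_
  rw [coeff_S, coeff_S]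
  have hp' : p.1 + p.2 = b := mem_antidiagonal.1 hp
  have hd : deg p.1 + deg p.2 = deg b := by rw [← deg_add, hp']
  by_cases h1 : deg p.1 = m
  · rw [if_pos h1, if_pos h1, if_pos (by omega)]
  · rw [if_neg h1, if_neg h1, zero_mul]

/-- the coefficients of the kernel -/
noncomputable def kc (a : Fin g →₀ ℕ) : ℝ := if a = 0 then 1 else a.multinomial / 2

/-- the master certificate -/
noncomputable def vt (a : Fin g →₀ ℕ) : ℝ := if a = 0 then 0 else a.multinomial / 2 ^ deg a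

theorem kc_pos (a : Fin g →₀ ℕ) : 0 < kc a := by
  unfold kc
  have : (0 : ℝ) < a.multinomial := by exact_mod_cast multinomial_pos a
  split_ifs <;> positivity

theorem vt_nonneg (a : Fin g →₀ ℕ) : 0 ≤ vt a := by
  unfold vt
  split_ifs <;> positivity

theorem geom_half (n : ℕ) (hn : 1 ≤ n) :
    ∑ m ∈ range (n + 1), (if m = 0 ∨ m = n then (0 : ℝ) else (1 / 2) ^ m / 2) =
      1 / 2 - (1 / 2) ^ n := by
  have h1 : ∑ m ∈ range (n + 1), (if m = 0 ∨ m = n then (0 : ℝ) else (1 / 2) ^ m / 2) =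
      ∑ m ∈ range (n + 1), ((1 / 2 : ℝ) ^ m / 2 - (if m = 0 then 1 / 2 else 0) -
        (if m = n then (1 / 2) ^ n / 2 else 0)) := by
    refine sum_congr rfl fun m _ => ?_
    rcases eq_or_ne m 0 with rfl | h0
    · rw [if_pos (Or.inl rfl), if_pos rfl, if_neg (by omega)]
      norm_num
    · rcases eq_or_ne m n with rfl | h1
      · rw [if_pos (Or.inr rfl), if_neg h0, if_pos rfl]
        ring
      · rw [if_neg (by tauto), if_neg h0, if_neg h1]
        ring
  rw [h1, sum_sub_distrib, sum_sub_distrib, sum_ite_eq', sum_ite_eq', ← sum_div,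
    geom_sum_eq (by norm_num)]
  simp only [mem_range]
  rw [if_pos (by omega), if_pos (by omega)]
  ring

theorem conv (b : Fin g →₀ ℕ) (hb : b ≠ 0) :
    ∑ p ∈ (antidiagonal b).filter (fun p => p.1 ≠ 0 ∧ p.2 ≠ 0), vt p.1 * kc p.2 =
      b.multinomial * (1 / 2 - (1 / 2) ^ deg b) := by
  have hb1 : 1 ≤ deg b := by
    have := (not_congr (deg_eq_zero (a := b))).2 hb
    omega
  set F : ℕ → ℝ := fun m => if m = 0 ∨ m = deg b then (0 : ℝ) else (1 / 2) ^ m / 2 with hF
  have h1 : ∑ p ∈ (antidiagonal b).filter (fun p => p.1 ≠ 0 ∧ p.2 ≠ 0), vt p.1 * kc p.2 =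
      ∑ p ∈ antidiagonal b, F (deg p.1) * ((p.1.multinomial * p.2.multinomial : ℕ) : ℝ) := by
    rw [sum_filter]
    refine sum_congr rfl fun p hp => ?_
    have hp' : p.1 + p.2 = b := mem_antidiagonal.1 hp
    have hd : deg p.1 + deg p.2 = deg b := by rw [← deg_add, hp']
    by_cases h1 : p.1 = 0
    · have : deg p.1 = 0 := deg_eq_zero.2 h1
      rw [if_neg (by tauto), hF]
      simp [this]
    · by_cases h2 : p.2 = 0
      · have : deg p.2 = 0 := deg_eq_zero.2 h2
        have h3 : deg p.1 = deg b := by omega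
        rw [if_neg (by tauto), hF]
        simp [h3]
      · rw [if_pos ⟨h1, h2⟩]
        have h1' : deg p.1 ≠ 0 := (not_congr deg_eq_zero).2 h1
        have h2' : deg p.2 ≠ 0 := (not_congr deg_eq_zero).2 h2
        have h3 : ¬ (deg p.1 = 0 ∨ deg p.1 = deg b) := by omega
        simp only [hF, if_neg h3, vt, kc, if_neg h1, if_neg h2]
        push_cast
        rw [one_div, inv_pow]
        ring
  rw [h1, ← sum_fiberwise_of_maps_to (s := antidiagonal b) (t := range (deg b + 1))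
    (g := fun p => deg p.1)]
  · have h2 : ∀ m ∈ range (deg b + 1), ∑ p ∈ (antidiagonal b).filter (fun p => deg p.1 = m),
        F (deg p.1) * ((p.1.multinomial * p.2.multinomial : ℕ) : ℝ) = F m * b.multinomial := by
      intro m hm
      rw [mem_range] at hm
      rw [← vandermonde b (by omega : m ≤ deg b)]
      push_cast
      rw [mul_sum]
      refine sum_congr rfl fun p hp => ?_
      rw [(mem_filter.1 hp).2]
    rw [sum_congr rfl h2, ← sum_mul, hF, geom_half _ hb1]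
    ring
  · intro p hp
    have hp' : p.1 + p.2 = b := mem_antidiagonal.1 hp
    have hd : deg p.1 + deg p.2 = deg b := by rw [← deg_add, hp']
    simp only [mem_range]
    omega

theorem master : IsMasterCertificate (g := g) kc vt := by
  refine ⟨by simp [vt], fun j => ?_, fun b hb => ?_⟩
  · have h0 : (Finsupp.single j 1 : Fin g →₀ ℕ) ≠ 0 := by simp
    have hd : deg (Finsupp.single j 1 : Fin g →₀ ℕ) = 1 := by
      simp [deg, Finsupp.single_apply]
    simp [vt, kc, h0, hd]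
  · have hb0 : b ≠ 0 := by
      rintro rfl
      simp at hb
    rw [conv b hb0]
    have h1 : kc b - b.multinomial * (1 / 2 - (1 / 2) ^ deg b) = vt b := by
      simp only [kc, vt, if_neg hb0]
      rw [one_div, inv_pow]
      ring
    rw [h1, max_eq_right (vt_nonneg b)]

end multi

/-! ### Power series in several variables -/

section series

/-- the multi-indices of degree less than `N` -/
noncomputable def FN (g N : ℕ) : Finset (Fin g →₀ ℕ) := (range N).biUnion (E g)

theorem mem_FN {N : ℕ} {a : Fin g →₀ ℕ} : a ∈ FN g N ↔ deg a < N := by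
  simp [FN, mem_E]

theorem FN_tendsto : Tendsto (FN g) atTop atTop := by
  refine tendsto_atTop_finset_of_monotone ?_ ?_
  · intro N M h a ha
    rw [mem_FN] at ha ⊢
    omega
  · intro a
    exact ⟨deg a + 1, mem_FN.2 (by omega)⟩

theorem sum_FN {K : Type} [CommRing K] [Algebra ℝ K] (τ : ℕ → ℝ) (x : Fin g → K) (N : ℕ) :
    ∑ a ∈ FN g N, algebraMap ℝ K (τ (deg a) * a.multinomial) * ∏ j, x j ^ a j =
      ∑ n ∈ range N, algebraMap ℝ K (τ n) * (∑ j, x j) ^ n := by
  unfold FN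
  rw [sum_biUnion]
  · refine sum_congr rfl fun n _ => ?_
    rw [← sum_E, mul_sum]
    refine sum_congr rfl fun a ha => ?_
    rw [mem_E.1 ha, map_mul, map_natCast]
    ring
  · intro n _ m _ hnm
    refine disjoint_left.2 fun a ha hb => hnm ?_
    rw [← mem_E.1 ha, mem_E.1 hb]

theorem hasSum_series (τ : ℕ → ℝ) (hτ : ∀ n, 0 ≤ τ n) (x : Fin g → ℂ)
    (hs : Summable fun n => τ n * (∑ j, ‖x j‖) ^ n) :
    HasSum (fun a : Fin g →₀ ℕ => ((τ (deg a) * a.multinomial : ℝ) : ℂ) * ∏ j, x j ^ a j)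
      (∑' n, (τ n : ℂ) * (∑ j, x j) ^ n) := by
  have hsum : Summable fun a : Fin g →₀ ℕ =>
      ((τ (deg a) * a.multinomial : ℝ) : ℂ) * ∏ j, x j ^ a j := by
    refine Summable.of_norm ?_
    have h1 : ∀ a : Fin g →₀ ℕ, ‖((τ (deg a) * a.multinomial : ℝ) : ℂ) * ∏ j, x j ^ a j‖ =
        algebraMap ℝ ℝ (τ (deg a) * a.multinomial) * ∏ j, ‖x j‖ ^ a j := by
      intro a
      rw [norm_mul, norm_prod, Complex.norm_real, Real.norm_of_nonneg
        (mul_nonneg (hτ _) (Nat.cast_nonneg _))]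
      simp [norm_pow]
    simp only [h1]
    refine summable_of_sum_le (c := ∑' n, τ n * (∑ j, ‖x j‖) ^ n) ?_ ?_
    · intro a
      have := hτ (deg a)
      simp only [Algebra.algebraMap_self, RingHom.id_apply]
      positivity
    · intro u
      obtain ⟨N, hN⟩ := (FN_tendsto (g := g)).eventually_ge_atTop u |>.exists
      refine (sum_le_sum_of_subset_of_nonneg hN ?_).trans ?_
      · intro a _ _
        have := hτ (deg a)
        simp only [Algebra.algebraMap_self, RingHom.id_apply]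
        positivity
      · rw [sum_FN]
        simp only [Algebra.algebraMap_self, RingHom.id_apply]
        refine hs.sum_le_tsum _ fun n _ => ?_
        have := hτ n
        positivity
  have h1 := hsum.hasSum.comp FN_tendsto
  have h2 : Summable fun n => (τ n : ℂ) * (∑ j, x j) ^ n := by
    refine Summable.of_norm_bounded hs fun n => ?_
    rw [norm_mul, norm_pow, Complex.norm_real, Real.norm_of_nonneg (hτ n)]
    exact mul_le_mul_of_nonneg_left (pow_le_pow_left₀ (norm_nonneg _) (norm_sum_le _ _) n) (hτ n)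
  have h3 := h2.hasSum.tendsto_sum_nat
  have h4 : (fun N => ∑ n ∈ range N, (τ n : ℂ) * (∑ j, x j) ^ n) = fun N =>
      ∑ a ∈ FN g N, ((τ (deg a) * a.multinomial : ℝ) : ℂ) * ∏ j, x j ^ a j := by
    funext N
    exact (sum_FN (K := ℂ) τ x N).symm
  rw [h4] at h3
  rw [← tendsto_nhds_unique h1 h3]
  exact hsum.hasSum

end series

/-! ### The example -/

section example_

variable {m : ℕ}

/-- the unit ball -/
def ball (g : ℕ) : Set (Fin g → ℂ) := {z | ∑ j, ‖z j‖ ^ 2 < 1}

/-- `⟨z, w⟩` -/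
def sg (z w : Fin g → ℂ) : ℂ := ∑ j, z j * conj (w j)

/-- `k = (1 + 1 / (1 - ⟨z, w⟩)) / 2` -/
noncomputable def kk (z w : Fin g → ℂ) : ℂ := (1 + 1 / (1 - sg z w)) / 2

/-- `ϑ = ⟨z, w⟩ / (2 - ⟨z, w⟩)` -/
noncomputable def th (z w : Fin g → ℂ) : ℂ := sg z w / (2 - sg z w)

/-- `q = z_1 + z_1^2` -/
def qq (z : Fin (m + 1) → ℂ) : ℂ := z 0 + z 0 ^ 2

/-- `r = z_1 - z_1^2` -/
def rr (z : Fin (m + 1) → ℂ) : ℂ := z 0 - z 0 ^ 2

/-- `h = q (z) conj (q (w)) / 12` -/
noncomputable def hh (z w : Fin (m + 1) → ℂ) : ℂ := qq z * conj (qq w) / 12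

/-- `s = k / (1 - h)` -/
noncomputable def ss (z w : Fin (m + 1) → ℂ) : ℂ := kk z w / (1 - hh z w)

theorem sg_norm {z w : Fin g → ℂ} (hz : z ∈ ball g) (hw : w ∈ ball g) :
    ∑ j, ‖z j * conj (w j)‖ < 1 := by
  have h1 : ∀ j, ‖z j * conj (w j)‖ ≤ (‖z j‖ ^ 2 + ‖w j‖ ^ 2) / 2 := by
    intro j
    rw [norm_mul, Complex.norm_conj]
    nlinarith [sq_nonneg (‖z j‖ - ‖w j‖)]
  have h2 := sum_le_sum fun j (_ : j ∈ (univ : Finset (Fin g))) => h1 j
  rw [← sum_div, sum_add_distrib] at h2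
  have hz' : ∑ j, ‖z j‖ ^ 2 < 1 := hz
  have hw' : ∑ j, ‖w j‖ ^ 2 < 1 := hw
  linarith

theorem sg_lt {z w : Fin g → ℂ} (hz : z ∈ ball g) (hw : w ∈ ball g) : ‖sg z w‖ < 1 :=
  (norm_sum_le _ _).trans_lt (sg_norm hz hw)

theorem ne_of_lt {a : ℂ} {r : ℝ} (h : ‖a‖ < r) : (r : ℂ) - a ≠ 0 := by
  intro h0
  have h1 : a = r := (sub_eq_zero.1 h0).symm
  rw [h1, Complex.norm_real] at h
  exact absurd h (not_lt.2 (Real.le_norm_self r))

theorem one_sub_sg {z w : Fin g → ℂ} (hz : z ∈ ball g) (hw : w ∈ ball g) : 1 - sg z w ≠ 0 := by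
  have := ne_of_lt (sg_lt hz hw)
  simpa using this

theorem two_sub_sg {z w : Fin g → ℂ} (hz : z ∈ ball g) (hw : w ∈ ball g) : 2 - sg z w ≠ 0 := by
  have := ne_of_lt ((sg_lt hz hw).trans one_lt_two)
  simpa using this

theorem z0_lt {z : Fin (m + 1) → ℂ} (hz : z ∈ ball (m + 1)) : ‖z 0‖ < 1 := by
  have h1 : ‖z 0‖ ^ 2 ≤ ∑ j, ‖z j‖ ^ 2 :=
    single_le_sum (f := fun j => ‖z j‖ ^ 2) (fun j _ => by positivity) (mem_univ 0)
  have h2 : ∑ j, ‖z j‖ ^ 2 < 1 := hz
  nlinarith [norm_nonneg (z 0)]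

theorem qq_lt {z : Fin (m + 1) → ℂ} (hz : z ∈ ball (m + 1)) : ‖qq z‖ < 2 := by
  have h1 := z0_lt hz
  unfold qq
  refine (norm_add_le _ _).trans_lt ?_
  rw [norm_pow]
  nlinarith [norm_nonneg (z 0)]

theorem hh_lt {z w : Fin (m + 1) → ℂ} (hz : z ∈ ball (m + 1)) (hw : w ∈ ball (m + 1)) :
    ‖hh z w‖ < 1 := by
  unfold hh
  rw [norm_div, norm_mul, Complex.norm_conj]
  have h1 := qq_lt hz
  have h2 := qq_lt hw
  have h3 : ‖qq z‖ * ‖qq w‖ ≤ 2 * 2 := by gcongr
  have h4 : ‖(12 : ℂ)‖ = 12 := by simp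
  rw [h4, div_lt_one (by norm_num)]
  linarith

theorem one_sub_hh {z w : Fin (m + 1) → ℂ} (hz : z ∈ ball (m + 1)) (hw : w ∈ ball (m + 1)) :
    1 - hh z w ≠ 0 := by
  have := ne_of_lt (hh_lt hz hw)
  simpa using this

theorem kk_eq {z w : Fin g → ℂ} (hz : z ∈ ball g) (hw : w ∈ ball g) :
    kk z w = (2 - sg z w) / (2 * (1 - sg z w)) := by
  have := one_sub_sg hz hw
  unfold kk
  field_simp
  ring

theorem kk_ne {z w : Fin g → ℂ} (hz : z ∈ ball g) (hw : w ∈ ball g) : kk z w ≠ 0 := by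
  rw [kk_eq hz hw]
  exact div_ne_zero (two_sub_sg hz hw) (mul_ne_zero two_ne_zero (one_sub_sg hz hw))

theorem sg_kernel : IsKernel (ball g) sg :=
  IsKernel.sum univ (fun j z w => z j * conj (w j)) fun j _ => isKernel_rankOne fun z => z j

theorem kk_kernel : IsKernel (ball g) kk := by
  have h1 := sg_kernel.geom (g := g) fun z hz w hw => sg_lt hz hw
  have h2 := ((isKernel_const zero_le_one).add h1).mul
    (isKernel_const (by norm_num : (0 : ℝ) ≤ 1 / 2))
  refine h2.congr fun z _ w _ => ?_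
  unfold kk
  push_cast
  ring

theorem th_kernel : IsKernel (ball g) th := by
  have h1 : IsKernel (ball g) (fun z w => sg z w * ((1 / 2 : ℝ) : ℂ)) :=
    sg_kernel.mul (isKernel_const (by norm_num : (0 : ℝ) ≤ 1 / 2))
  have h2 := h1.geom (g := g) fun z hz w hw => by
    rw [norm_mul, Complex.norm_real]
    have := sg_lt hz hw
    norm_num
    linarith
  refine (h1.mul h2).congr fun z hz w hw => ?_
  have h3 := two_sub_sg hz hw
  have h4 : (1 : ℂ) - sg z w * ((1 / 2 : ℝ) : ℂ) = (2 - sg z w) / 2 := by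
    push_cast
    ring
  rw [h4]
  unfold th
  push_cast
  field_simp

/-- `h` is a kernel -/
theorem hh_kernel : IsKernel (ball (m + 1)) hh := by
  refine ((isKernel_rankOne qq).mul (isKernel_const (by norm_num : (0 : ℝ) ≤ 1 / 12))).congr
    fun z _ w _ => ?_
  unfold hh
  push_cast
  ring

theorem ss_kernel : IsKernel (ball (m + 1)) ss := by
  refine (kk_kernel.mul (hh_kernel.geom fun z hz w hw => hh_lt hz hw)).congr fun z _ w _ => ?_
  unfold ss
  rw [div_eq_mul_inv]

/-- the rest of `⟨z, w⟩` -/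
def sg' (z w : Fin (m + 1) → ℂ) : ℂ := ∑ j : Fin m, z j.succ * conj (w j.succ)

theorem sg_split (z w : Fin (m + 1) → ℂ) : sg z w = z 0 * conj (w 0) + sg' z w := by
  unfold sg sg'
  rw [Fin.sum_univ_succ]

theorem one_sub_inv_ss {z w : Fin (m + 1) → ℂ} (hz : z ∈ ball (m + 1)) (hw : w ∈ ball (m + 1)) :
    1 - 1 / ss z w = ((3 + z 0 * conj (w 0)) * ((1 / 6 : ℝ) : ℂ)) * (sg z w + sg' z w * th z w) +
      (rr z * conj (rr w) * ((1 / 12 : ℝ) : ℂ)) * th z w +
      qq z * conj (qq w) * ((1 / 12 : ℝ) : ℂ) := by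
  have h1 := two_sub_sg hz hw
  have h2 := one_sub_sg hz hw
  have h3 := one_sub_hh hz hw
  have h4 : sg' z w = sg z w - z 0 * conj (w 0) := by
    rw [sg_split]
    ring
  have h5 : 1 / ss z w = (1 - hh z w) * (2 * (1 - sg z w)) / (2 - sg z w) := by
    unfold ss
    rw [kk_eq hz hw]
    field_simp
  rw [h5, h4]
  unfold th hh qq rr
  simp only [map_add, map_sub, map_pow]
  push_cast
  field_simp
  ring

theorem one_sub_inv_ss_kernel : IsKernel (ball (m + 1)) (fun z w => 1 - 1 / ss z w) := by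
  have hs' : IsKernel (ball (m + 1)) (sg' (m := m)) :=
    IsKernel.sum univ (fun (j : Fin m) z w => z j.succ * conj (w j.succ))
      fun j _ => isKernel_rankOne fun z => z j.succ
  have h3 : IsKernel (ball (m + 1)) (fun z w : Fin (m + 1) → ℂ =>
      (3 + z 0 * conj (w 0)) * ((1 / 6 : ℝ) : ℂ)) := by
    refine (((isKernel_const (by norm_num : (0 : ℝ) ≤ 3)).add
      (isKernel_rankOne fun z : Fin (m + 1) → ℂ => z 0)).mul
      (isKernel_const (by norm_num : (0 : ℝ) ≤ 1 / 6))).congr fun z _ w _ => ?_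
    push_cast
    ring
  have h4 := h3.mul (sg_kernel.add (hs'.mul th_kernel))
  have h5 := ((isKernel_rankOne (Ω := ball (m + 1)) rr).mul
    (isKernel_const (by norm_num : (0 : ℝ) ≤ 1 / 12))).mul th_kernel
  have h6 := (isKernel_rankOne (Ω := ball (m + 1)) qq).mul
    (isKernel_const (by norm_num : (0 : ℝ) ≤ 1 / 12))
  exact ((h4.add h5).add h6).congr fun z hz w hw => (one_sub_inv_ss hz hw).symm

theorem zero_mem_ball : (0 : Fin g → ℂ) ∈ ball g := by
  simp [ball]

theorem ss_zero {z : Fin (m + 1) → ℂ} : ss z 0 = 1 := by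
  have h1 : sg z 0 = 0 := by simp [sg]
  have h2 : hh z 0 = 0 := by simp [hh, qq]
  unfold ss kk
  rw [h1, h2]
  norm_num

theorem ball_open : IsOpen (ball g) := by
  unfold ball
  exact isOpen_lt (by fun_prop) continuous_const

theorem ball_star : StarConvex ℝ 0 (ball g) := by
  intro z hz a b _ hb hab
  have hz' : ∑ j, ‖z j‖ ^ 2 < 1 := hz
  show ∑ j, ‖(a • (0 : Fin g → ℂ) + b • z) j‖ ^ 2 < 1
  have hb1 : b ≤ 1 := by linarith
  refine lt_of_le_of_lt (sum_le_sum fun j _ => ?_) hz'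
  simp only [smul_zero, zero_add, Pi.smul_apply]
  rw [norm_smul, Real.norm_of_nonneg hb, mul_pow]
  have : b ^ 2 ≤ 1 := pow_le_one₀ hb hb1
  nlinarith [sq_nonneg ‖z j‖]

theorem ball_connected : IsConnected (ball g) :=
  ⟨⟨0, zero_mem_ball⟩, (ball_star.isPathConnected zero_mem_ball).isConnected.isPreconnected⟩

theorem sg_conj (z w : Fin g → ℂ) : conj (sg z w) = sg w z := by
  unfold sg
  rw [map_sum]
  refine sum_congr rfl fun j _ => ?_
  rw [map_mul, Complex.conj_conj, mul_comm]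

theorem kk_conj (z w : Fin g → ℂ) : conj (kk z w) = kk w z := by
  unfold kk
  simp [sg_conj, Complex.conj_ofNat]

theorem hh_conj (z w : Fin (m + 1) → ℂ) : conj (hh z w) = hh w z := by
  unfold hh
  simp [mul_comm, Complex.conj_ofNat]

theorem ss_conj (z w : Fin (m + 1) → ℂ) : conj (ss z w) = ss w z := by
  unfold ss
  rw [map_div₀, kk_conj, map_sub, hh_conj, map_one]

theorem kk_diff (w : Fin g → ℂ) (hw : w ∈ ball g) :
    DifferentiableOn ℂ (fun z => kk z w) (ball g) := by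
  have h1 : DifferentiableOn ℂ (fun z : Fin g → ℂ => 1 - sg z w) (ball g) := by
    unfold sg
    fun_prop
  have h2 : DifferentiableOn ℂ (fun z : Fin g → ℂ => (1 - sg z w)⁻¹) (ball g) :=
    h1.inv fun z hz => one_sub_sg hz hw
  unfold kk
  simp only [one_div]
  fun_prop

theorem ss_diff (w : Fin (m + 1) → ℂ) (hw : w ∈ ball (m + 1)) :
    DifferentiableOn ℂ (fun z => ss z w) (ball (m + 1)) := by
  have h1 : DifferentiableOn ℂ (fun z : Fin (m + 1) → ℂ => 1 - hh z w) (ball (m + 1)) := by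
    unfold hh qq
    fun_prop
  have h2 : DifferentiableOn ℂ (fun z : Fin (m + 1) → ℂ => (1 - hh z w)⁻¹) (ball (m + 1)) :=
    h1.inv fun z hz => one_sub_hh hz hw
  unfold ss
  simp only [div_eq_mul_inv]
  exact (kk_diff w hw).mul h2

theorem kk_holo : IsHolomorphic (ball g) kk := by
  refine ⟨kk_diff, fun z hz => ?_⟩
  simp only [kk_conj]
  exact kk_diff z hz

theorem ss_holo : IsHolomorphic (ball (m + 1)) ss := by
  refine ⟨ss_diff, fun z hz => ?_⟩
  simp only [ss_conj]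
  exact ss_diff z hz

theorem kk_expansion : HasDiagonalExpansion (g := g) kk kc := by
  have hopen : IsOpen {p : (Fin g → ℂ) × (Fin g → ℂ) | p.1 ∈ ball g ∧ p.2 ∈ ball g} :=
    (ball_open.preimage continuous_fst).inter (ball_open.preimage continuous_snd)
  refine Filter.eventually_of_mem (hopen.mem_nhds ⟨zero_mem_ball, zero_mem_ball⟩) ?_
  rintro ⟨z, w⟩ ⟨hz, hw⟩
  simp only at hz hw ⊢
  set τ : ℕ → ℝ := fun n => if n = 0 then 1 else 1 / 2 with hτ
  have hτ0 : ∀ n, 0 ≤ τ n := by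
    intro n
    rw [hτ]
    simp only
    split_ifs <;> norm_num
  have hτ1 : ∀ n, τ n ≤ 1 := by
    intro n
    rw [hτ]
    simp only
    split_ifs <;> norm_num
  have hlt := sg_norm hz hw
  have hnn : 0 ≤ ∑ j, ‖z j * conj (w j)‖ := sum_nonneg fun j _ => norm_nonneg _
  have hs : Summable fun n => τ n * (∑ j, ‖z j * conj (w j)‖) ^ n := by
    refine Summable.of_nonneg_of_le (fun n => mul_nonneg (hτ0 n) (pow_nonneg hnn n)) (fun n => ?_)
      (summable_geometric_of_lt_one hnn hlt)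
    calc τ n * (∑ j, ‖z j * conj (w j)‖) ^ n ≤ 1 * (∑ j, ‖z j * conj (w j)‖) ^ n :=
          mul_le_mul_of_nonneg_right (hτ1 n) (pow_nonneg hnn n)
      _ = _ := one_mul _
  have h := hasSum_series τ hτ0 (fun j => z j * conj (w j)) hs
  have hval : ∑' n, (τ n : ℂ) * (∑ j, z j * conj (w j)) ^ n = kk z w := by
    have hg := hasSum_geometric_of_norm_lt_one (sg_lt hz hw)
    have hg2 := (hg.mul_left (1 / 2)).add (hasSum_ite_eq 0 (1 / 2 : ℂ))
    have hg3 : (fun n : ℕ => (1 / 2 : ℂ) * sg z w ^ n + if n = 0 then 1 / 2 else 0) =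
        fun n => (τ n : ℂ) * (∑ j, z j * conj (w j)) ^ n := by
      funext n
      rcases eq_or_ne n 0 with rfl | hn
      · simp [hτ]
        norm_num
      · simp [hτ, hn, sg]
    rw [hg3] at hg2
    rw [hg2.tsum_eq]
    unfold kk
    rw [one_div (1 - sg z w)]
    ring
  rw [hval] at h
  refine h.congr_fun ?_
  intro a
  simp only [mon]
  rw [map_prod, mul_assoc, ← prod_mul_distrib]
  congr 1
  · have h0 : (deg a = 0) ↔ a = 0 := deg_eq_zero
    by_cases ha : a = 0
    · subst ha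
      simp [hτ, kc, deg, Finsupp.multinomial]
    · simp only [hτ, kc, if_neg ha, if_neg ((not_congr h0).2 ha)]
      push_cast
      ring
  · refine prod_congr rfl fun j _ => ?_
    rw [map_pow, mul_pow]

theorem mon_neg (a : Fin g →₀ ℕ) (z : Fin g → ℂ) :
    mon a (-z) * conj (mon a (-z)) = mon a z * conj (mon a z) := by
  have h : mon a (-z) = (∏ j, (-1 : ℂ) ^ a j) * mon a z := by
    unfold mon
    rw [← prod_mul_distrib]
    refine prod_congr rfl fun j _ => ?_
    rw [Pi.neg_apply, ← mul_pow, neg_one_mul]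
  have h2 : (∏ j, (-1 : ℂ) ^ a j) * (∏ j, (-1 : ℂ) ^ a j) = 1 := by
    rw [← prod_mul_distrib]
    refine prod_eq_one fun j _ => ?_
    rw [← mul_pow]
    norm_num
  rw [h, map_mul, map_prod]
  simp only [map_pow, map_neg, map_one]
  linear_combination (mon a z * conj (mon a z)) * h2

theorem ss_not_diagonal (c : (Fin (m + 1) →₀ ℕ) → ℝ) : ¬ HasDiagonalExpansion ss c := by
  intro hc
  set e : ℝ → Fin (m + 1) → ℂ := fun t j => if j = 0 then (t : ℂ) else 0 with he
  have hcont : Continuous e := by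
    rw [he]
    refine continuous_pi fun j => ?_
    split_ifs
    · exact Complex.continuous_ofReal
    · exact continuous_const
  have he0 : e 0 = 0 := by
    funext j
    simp [he]
  have hneg : ∀ t, e (-t) = - e t := by
    intro t
    funext j
    simp only [he, Pi.neg_apply]
    split_ifs <;> simp
  have h1 : Tendsto (fun t : ℝ => (e t, e t)) (𝓝 0) (𝓝 (0, 0)) := by
    have := (hcont.prodMk hcont).tendsto 0
    simpa [he0] using this
  have h2 : Tendsto (fun t : ℝ => (e (-t), e (-t))) (𝓝 0) (𝓝 (0, 0)) := by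
    have := ((hcont.comp continuous_neg).prodMk (hcont.comp continuous_neg)).tendsto 0
    simpa [he0, Function.comp] using this
  have h3 := (h1.eventually hc).and (h2.eventually hc)
  have h4 : ∀ᶠ t : ℝ in 𝓝[>] 0, t < 1 := by
    exact (eventually_nhdsWithin_of_eventually_nhds (eventually_lt_nhds one_pos))
  obtain ⟨t, ⟨⟨ht1, ht2⟩, ht3⟩, ht4⟩ :=
    ((eventually_nhdsWithin_of_eventually_nhds h3).and h4).and self_mem_nhdsWithin |>.exists
  have ht0 : 0 < t := ht4
  simp only at ht1 ht2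
  have h5 : ss (e t) (e t) = ss (e (-t)) (e (-t)) := by
    refine ht1.unique ?_
    have h6 : (fun a => (c a : ℂ) * mon a (e t) * conj (mon a (e t))) =
        fun a => (c a : ℂ) * mon a (e (-t)) * conj (mon a (e (-t))) := by
      funext a
      rw [hneg, mul_assoc, mul_assoc, mon_neg]
    rw [h6]
    exact ht2
  have hb : e t ∈ ball (m + 1) := by
    show ∑ j, ‖e t j‖ ^ 2 < 1
    rw [Finset.sum_eq_single 0]
    · simp only [he, if_true]
      rw [Complex.norm_real, Real.norm_of_nonneg ht0.le]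
      nlinarith
    · intro j _ hj
      simp [he, hj]
    · intro h
      exact absurd (mem_univ _) h
  have hb' : e (-t) ∈ ball (m + 1) := by
    show ∑ j, ‖e (-t) j‖ ^ 2 < 1
    rw [hneg]
    simp only [Pi.neg_apply, norm_neg]
    exact hb
  have hk : kk (e (-t)) (e (-t)) = kk (e t) (e t) := by
    unfold kk sg
    rw [hneg]
    simp
  have h6 : hh (e t) (e t) = hh (e (-t)) (e (-t)) := by
    have h7 := h5
    unfold ss at h7
    rw [hk] at h7
    have h8 := one_sub_hh hb hb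
    have h9 := one_sub_hh hb' hb'
    have h10 := kk_ne hb hb
    field_simp at h7
    linear_combination h7
  have h7 : (qq (e t) * conj (qq (e t)) : ℂ) = qq (e (-t)) * conj (qq (e (-t))) := by
    unfold hh at h6
    linear_combination 12 * h6
  have h8 : qq (e t) = ((t + t ^ 2 : ℝ) : ℂ) := by
    simp [qq, he]
  have h9 : qq (e (-t)) = ((-t + t ^ 2 : ℝ) : ℂ) := by
    simp [qq, he]
  rw [h8, h9, Complex.conj_ofReal, Complex.conj_ofReal, ← Complex.ofReal_mul,
    ← Complex.ofReal_mul] at h7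
  have h10 := Complex.ofReal_injective h7
  have h11 : 0 < t ^ 3 := by positivity
  nlinarith

theorem omegaOne_subset : OmegaOne (g := g) vt ⊆ ball g := by
  rintro x ⟨_, hs, hlt⟩
  show ∑ j, ‖x j‖ ^ 2 < 1
  by_contra hcon
  push Not at hcon
  set T := ∑' b, vt b * absMon b x with hT
  have h1 : ∀ N, ∑ n ∈ range N, (if n = 0 then (0 : ℝ) else (1 / 2) ^ n) ≤ T := by
    intro N
    have h2 : ∑ a ∈ FN g N, vt a * absMon a x ≤ T := hs.sum_le_tsum (FN g N) fun b _ =>
      mul_nonneg (vt_nonneg b) (prod_nonneg fun j _ => by positivity)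
    refine le_trans ?_ h2
    have h3 := sum_FN (K := ℝ) (fun n => if n = 0 then (0 : ℝ) else (1 / 2) ^ n)
      (fun j => ‖x j‖ ^ 2) N
    have h4 : ∑ a ∈ FN g N, algebraMap ℝ ℝ ((if deg a = 0 then (0 : ℝ) else (1 / 2) ^ deg a) *
        a.multinomial) * ∏ j, (‖x j‖ ^ 2) ^ a j = ∑ a ∈ FN g N, vt a * absMon a x := by
      refine sum_congr rfl fun a _ => ?_
      have h5 : ∏ j, (‖x j‖ ^ 2) ^ a j = absMon a x := by
        unfold absMon
        refine prod_congr rfl fun j _ => ?_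
        rw [← pow_mul]
      rw [h5]
      congr 1
      simp only [Algebra.algebraMap_self, RingHom.id_apply]
      by_cases ha : a = 0
      · subst ha
        simp [vt, deg]
      · have hd := (not_congr (deg_eq_zero (a := a))).2 ha
        simp only [vt, if_neg ha, if_neg hd]
        rw [one_div, inv_pow]
        ring
    rw [← h4, h3]
    refine sum_le_sum fun n _ => ?_
    simp only [Algebra.algebraMap_self, RingHom.id_apply]
    have h6 : (0 : ℝ) ≤ if n = 0 then (0 : ℝ) else (1 / 2) ^ n := by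
      split_ifs <;> positivity
    exact le_mul_of_one_le_right h6 (one_le_pow₀ hcon)
  have h2 : ∀ N, ∑ n ∈ range (N + 1), (if n = 0 then (0 : ℝ) else (1 / 2) ^ n) =
      1 - (1 / 2) ^ N := by
    intro N
    induction N with
    | zero => simp
    | succ N ih =>
      rw [sum_range_succ, ih, if_neg (by omega)]
      ring
  have h3 : Tendsto (fun N : ℕ => 1 - (1 / 2 : ℝ) ^ N) atTop (𝓝 (1 - 0)) :=
    (tendsto_pow_atTop_nhds_zero_of_lt_one (by norm_num) (by norm_num)).const_sub 1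
  have h4 : (1 : ℝ) - 0 ≤ T := le_of_tendsto' h3 fun N => by
    rw [← h2]
    exact h1 _
  linarith

theorem ball_hasSum {x : Fin g → ℂ} (hx : x ∈ ball g) :
    HasSum (fun b => vt b * absMon b x) ((1 - (∑ j, ‖x j‖ ^ 2) / 2)⁻¹ - 1) := by
  set S := ∑ j, ‖x j‖ ^ 2 with hS
  have hS1 : S < 1 := hx
  have hS0 : 0 ≤ S := sum_nonneg fun j _ => by positivity
  set τ : ℕ → ℝ := fun n => if n = 0 then 0 else (1 / 2) ^ n with hτ
  have hτ0 : ∀ n, 0 ≤ τ n := by
    intro n
    rw [hτ]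
    simp only
    split_ifs <;> positivity
  have hgeo : HasSum (fun n => (S / 2) ^ n) (1 - S / 2)⁻¹ :=
    hasSum_geometric_of_lt_one (by positivity) (by linarith)
  have hone : HasSum (fun n : ℕ => if n = 0 then (1 : ℝ) else 0) 1 := hasSum_ite_eq 0 1
  have hsum : HasSum (fun n => τ n * S ^ n) ((1 - S / 2)⁻¹ - 1) := by
    have h := hgeo.sub hone
    have h1 : (fun n : ℕ => (S / 2) ^ n - if n = 0 then (1 : ℝ) else 0) = fun n => τ n * S ^ n := by
      funext n
      rcases eq_or_ne n 0 with rfl | hn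
      · simp [hτ]
      · simp only [hτ, if_neg hn]
        rw [div_pow, one_div, inv_pow]
        ring
    rwa [h1] at h
  have hS' : ∑ j, ‖((‖x j‖ ^ 2 : ℝ) : ℂ)‖ = S := by
    rw [hS]
    refine sum_congr rfl fun j _ => ?_
    rw [Complex.norm_real, Real.norm_of_nonneg (by positivity)]
  have h := hasSum_series τ hτ0 (fun j => ((‖x j‖ ^ 2 : ℝ) : ℂ)) (by
    rw [hS']
    exact hsum.summable)
  have h2 : ∑' n, (τ n : ℂ) * (∑ j, ((‖x j‖ ^ 2 : ℝ) : ℂ)) ^ n =
      (((1 - S / 2)⁻¹ - 1 : ℝ) : ℂ) := by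
    rw [← hsum.tsum_eq, Complex.ofReal_tsum]
    refine tsum_congr fun n => ?_
    rw [← Complex.ofReal_sum, ← hS]
    push_cast
    ring
  rw [h2] at h
  have h3 : (fun a : Fin g →₀ ℕ => ((τ (deg a) * a.multinomial : ℝ) : ℂ) *
      ∏ j, ((‖x j‖ ^ 2 : ℝ) : ℂ) ^ a j) = fun a => ((vt a * absMon a x : ℝ) : ℂ) := by
    funext a
    have h5 : absMon a x = ∏ j, (‖x j‖ ^ 2) ^ a j := by
      unfold absMon
      refine prod_congr rfl fun j _ => ?_
      rw [← pow_mul]
    have h6 : τ (deg a) * a.multinomial = vt a := by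
      by_cases ha : a = 0
      · subst ha
        simp [hτ, vt, deg]
      · have hd := (not_congr (deg_eq_zero (a := a))).2 ha
        simp only [hτ, vt, if_neg ha, if_neg hd]
        rw [one_div, inv_pow]
        ring
    rw [h6, h5]
    push_cast
    ring
  rw [h3] at h
  exact_mod_cast h

theorem omegaOne_eq : OmegaOne (g := g) vt = ball g := by
  refine Set.Subset.antisymm omegaOne_subset fun x hx => ?_
  have hlt : ∀ y ∈ ball g, ((1 - (∑ j, ‖y j‖ ^ 2) / 2)⁻¹ - 1) < 1 := by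
    intro y hy
    have h1 : ∑ j, ‖y j‖ ^ 2 < 1 := hy
    have h2 : 1 / 2 < 1 - (∑ j, ‖y j‖ ^ 2) / 2 := by linarith
    have h3 : (1 - (∑ j, ‖y j‖ ^ 2) / 2)⁻¹ < (1 / 2)⁻¹ := by
      rw [inv_lt_inv₀ (by linarith) (by norm_num)]
      exact h2
    norm_num at h3
    linarith
  refine ⟨?_, (ball_hasSum hx).summable, ?_⟩
  · refine mem_interior.2 ⟨ball g, ?_, ball_open, hx⟩
    intro y hy
    refine ⟨1, ?_⟩
    rintro _ ⟨b, rfl⟩
    have h1 := (ball_hasSum hy).summable.le_tsum b fun a _ =>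
      mul_nonneg (vt_nonneg a) (prod_nonneg fun j _ => by positivity)
    rw [(ball_hasSum hy).tsum_eq] at h1
    exact h1.trans (hlt y hy).le
  · rw [(ball_hasSum hx).tsum_eq]
    exact hlt x hx

end example_

/-- **Complete Pick factors on the domain of the master certificate need not be diagonal.** For
every `g = m + 1 ≥ 1` there are a domain `Ω ∋ 0`, a normalized diagonal holomorphic kernel `k` on
`Ω` with master certificate `ϑ` and `Ω¹_ϑ = Ω`, a kernel `h` on `Ω`, and a holomorphic complete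
Pick kernel `s` on `Ω`, normalized at the origin, with `k = (1 - h) s` on `Ω × Ω`, such that `s` is
not diagonal; `s` even has no expansion `∑ c_a z^a conj(w)^a` with real coefficients. -/
theorem result (m : ℕ) :
    ∃ (Ω : Set (Fin (m + 1) → ℂ)) (k h s : (Fin (m + 1) → ℂ) → (Fin (m + 1) → ℂ) → ℂ)
      (kc ϑ : (Fin (m + 1) →₀ ℕ) → ℝ),
      (IsOpen Ω ∧ IsConnected Ω ∧ 0 ∈ Ω) ∧
      (IsKernel Ω k ∧ IsHolomorphic Ω k ∧ (∀ a, 0 < kc a) ∧ HasDiagonalExpansion k kc ∧
        kc 0 = 1) ∧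
      (IsMasterCertificate kc ϑ ∧ OmegaOne ϑ = Ω) ∧
      IsKernel Ω h ∧
      (IsCPKernel Ω s ∧ IsHolomorphic Ω s) ∧
      (∀ z ∈ Ω, ∀ w ∈ Ω, k z w = (1 - h z w) * s z w) ∧
      (¬ IsDiagonal s ∧ ∀ c : (Fin (m + 1) →₀ ℕ) → ℝ, ¬ HasDiagonalExpansion s c) := by
  refine ⟨ball (m + 1), kk, hh, ss, kc, vt, ⟨ball_open, ball_connected, zero_mem_ball⟩,
    ⟨kk_kernel, kk_holo, kc_pos, kk_expansion, by simp [kc]⟩, ⟨master, omegaOne_eq⟩,
    hh_kernel, ⟨⟨ss_kernel, fun z _ => ss_zero, fun z hz w hw => ?_, one_sub_inv_ss_kernel⟩,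
    ss_holo⟩, fun z hz w hw => ?_, ?_, ss_not_diagonal⟩
  · exact div_ne_zero (kk_ne hz hw) (one_sub_hh hz hw)
  · unfold ss
    rw [mul_div_cancel₀ _ (one_sub_hh hz hw)]
  · rintro ⟨c, _, hc⟩
    exact ss_not_diagonal c hc

end Pool.Agent.Results.MP_72b8ed_an.NonDiagonalFactor
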